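import Pool.Agent.Q78.WI.Stm

/-!
# Project WI (helper78), job E4: Taylor expansion of a product of powers
-/

set_option autoImplicit false

namespace Pool.Agent.Q265.WI

open Filter Topology Asymptotics
open Pool.Agent.Q78.WI

theorem log_exp (a : ℝ) : (fun t : ℝ => Real.log (1 + t * a) -
    (t * a - (t * a) ^ 2 / 2 + (t * a) ^ 3 / 3)) =O[𝓝 0] fun t : ℝ => t ^ 4 := by
  refine IsBigO.of_bound (2 * |a| ^ 4) ?_
  have hc : ContinuousAt (fun t : ℝ => |t * a|) 0 := by fun_prop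
  have h1 : ∀ᶠ t : ℝ in 𝓝 0, |t * a| < 1 / 2 := by
    refine hc.eventually_lt continuousAt_const ?_
    simp
  filter_upwards [h1] with t ht
  have h2 := Real.abs_log_sub_add_sum_range_le (x := -(t * a)) (by rw [abs_neg]; linarith) 3
  rw [abs_neg, sub_neg_eq_add] at h2
  simp only [Finset.sum_range_succ, Finset.sum_range_zero] at h2
  have h3 : |t * a| ^ (3 + 1) / (1 - |t * a|) ≤ 2 * |t * a| ^ 4 := by
    rw [div_le_iff₀ (by linarith)]
    have h5 : 0 ≤ |t * a| ^ 4 := by positivity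
    have h6 : 0 ≤ |t * a| ^ 4 * (1 / 2 - |t * a|) := mul_nonneg h5 (by linarith)
    show |t * a| ^ 4 ≤ 2 * |t * a| ^ 4 * (1 - |t * a|)
    nlinarith
  rw [Real.norm_eq_abs, Real.norm_eq_abs]
  have h4 : Real.log (1 + t * a) - (t * a - (t * a) ^ 2 / 2 + (t * a) ^ 3 / 3) =
      0 + (-(t * a)) ^ (0 + 1) / (((0 : ℕ) : ℝ) + 1) + (-(t * a)) ^ (1 + 1) / (((1 : ℕ) : ℝ) + 1) +
        (-(t * a)) ^ (2 + 1) / (((2 : ℕ) : ℝ) + 1) + Real.log (1 + t * a) := by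
    push_cast
    ring
  rw [h4]
  refine h2.trans (h3.trans (le_of_eq ?_))
  rw [abs_mul, mul_pow, abs_pow]
  ring

theorem one_O {f : ℝ → ℝ} (hf : ContinuousAt f 0) : f =O[𝓝 0] fun _ : ℝ => (1 : ℝ) :=
  hf.tendsto.isBigO_one ℝ

theorem pow_O {n : ℕ} (hn : 4 ≤ n) : (fun t : ℝ => t ^ n) =O[𝓝 0] fun t : ℝ => t ^ 4 := by
  obtain ⟨m, rfl⟩ := Nat.exists_eq_add_of_le hn
  have h1 : (fun t : ℝ => t ^ m) =O[𝓝 0] fun _ : ℝ => (1 : ℝ) :=
    one_O (by fun_prop)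
  have h2 := (isBigO_refl (fun t : ℝ => t ^ 4) (𝓝 0)).mul h1
  simpa [pow_add] using h2

/-- the Taylor expansion of the exponential -/
theorem exp_O {L : ℝ → ℝ} (hL : L =O[𝓝 0] fun t : ℝ => t) :
    (fun t => Real.exp (L t) - (1 + L t + L t ^ 2 / 2 + L t ^ 3 / 6)) =O[𝓝 0]
      fun t : ℝ => t ^ 4 := by
  have h0 : Tendsto L (𝓝 0) (𝓝 0) := hL.trans_tendsto tendsto_id
  have h1 : ∀ᶠ t in 𝓝 (0 : ℝ), |L t| ≤ 1 := by
    have h2 := h0.abs
    rw [abs_zero] at h2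
    exact (h2.eventually_lt_const one_pos).mono fun t ht => ht.le
  have h3 : (fun t => Real.exp (L t) - (1 + L t + L t ^ 2 / 2 + L t ^ 3 / 6)) =O[𝓝 0]
      fun t : ℝ => L t ^ 4 := by
    refine IsBigO.of_bound 1 ?_
    filter_upwards [h1] with t ht
    have h4 := Real.exp_bound ht (n := 4) (by norm_num)
    simp only [Finset.sum_range_succ, Finset.sum_range_zero] at h4
    rw [Real.norm_eq_abs, Real.norm_eq_abs]
    have h5 : Real.exp (L t) - (1 + L t + L t ^ 2 / 2 + L t ^ 3 / 6) =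
        Real.exp (L t) - (0 + L t ^ 0 / ((Nat.factorial 0 : ℕ) : ℝ) +
          L t ^ 1 / ((Nat.factorial 1 : ℕ) : ℝ) + L t ^ 2 / ((Nat.factorial 2 : ℕ) : ℝ) +
          L t ^ 3 / ((Nat.factorial 3 : ℕ) : ℝ)) := by
      simp only [Nat.factorial]
      push_cast
      ring
    rw [h5]
    refine h4.trans ?_
    rw [abs_pow, one_mul]
    have h6 : 0 ≤ |L t| ^ 4 := by positivity
    have h7 : ((Nat.succ 4 : ℕ) : ℝ) / ((Nat.factorial 4 : ℕ) * (4 : ℕ) : ℝ) ≤ 1 := by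
      simp only [Nat.factorial]
      norm_num
    calc |L t| ^ 4 * (((Nat.succ 4 : ℕ) : ℝ) / ((Nat.factorial 4 : ℕ) * (4 : ℕ) : ℝ)) ≤
        |L t| ^ 4 * 1 := mul_le_mul_of_nonneg_left h7 h6
      _ = |L t| ^ 4 := mul_one _
  exact h3.trans (hL.pow 4)

theorem e4 : S_E4 := by
  intro s d l
  obtain ⟨p1, hp1⟩ : ∃ p1, p1 = ∑ i, l i := ⟨_, rfl⟩
  obtain ⟨p2, hp2⟩ : ∃ p2, p2 = ∑ i, l i ^ 2 := ⟨_, rfl⟩
  obtain ⟨p3, hp3⟩ : ∃ p3, p3 = ∑ i, l i ^ 3 := ⟨_, rfl⟩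
  rw [← hp1, ← hp2, ← hp3]
  obtain ⟨L, hL⟩ : ∃ L : ℝ → ℝ, L = fun t => -(s * ∑ i, Real.log (1 + t * l i)) := ⟨_, rfl⟩
  obtain ⟨A, hA⟩ : ∃ A : ℝ → ℝ, A = fun t => -(s * p1) * t + (s * p2 / 2) * t ^ 2 +
    (-(s * p3 / 3)) * t ^ 3 := ⟨_, rfl⟩
  -- the logarithm
  have hLA : (fun t => L t - A t) =O[𝓝 0] fun t : ℝ => t ^ 4 := by
    have h1 : (fun t : ℝ => ∑ i, (Real.log (1 + t * l i) -
        (t * l i - (t * l i) ^ 2 / 2 + (t * l i) ^ 3 / 3))) =O[𝓝 0] fun t : ℝ => t ^ 4 :=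
      IsBigO.fun_sum fun i _ => log_exp (l i)
    refine (h1.const_mul_left (-s)).congr_left fun t => ?_
    have e1 : ∑ i, t * l i = t * p1 := by rw [hp1, Finset.mul_sum]
    have e2 : ∑ i, (t * l i) ^ 2 / 2 = t ^ 2 * p2 / 2 := by
      rw [hp2, Finset.mul_sum, Finset.sum_div]
      exact Finset.sum_congr rfl fun i _ => by ring
    have e3 : ∑ i, (t * l i) ^ 3 / 3 = t ^ 3 * p3 / 3 := by
      rw [hp3, Finset.mul_sum, Finset.sum_div]
      exact Finset.sum_congr rfl fun i _ => by ring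
    rw [Finset.sum_sub_distrib, Finset.sum_add_distrib, Finset.sum_sub_distrib, e1, e2, e3, hL, hA]
    ring
  have hAt : A =O[𝓝 0] fun t : ℝ => t := by
    have h1 : (fun t : ℝ => -(s * p1) + (s * p2 / 2) * t + (-(s * p3 / 3)) * t ^ 2) =O[𝓝 0]
        fun _ : ℝ => (1 : ℝ) :=
      one_O (by fun_prop)
    have h2 := (isBigO_refl (fun t : ℝ => t) (𝓝 0)).mul h1
    simp only [mul_one] at h2
    refine h2.congr_left fun t => ?_
    rw [hA]
    ring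
  have h4t : (fun t : ℝ => t ^ 4) =O[𝓝 0] fun t : ℝ => t := by
    have h1 : (fun t : ℝ => t ^ 3) =O[𝓝 0] fun _ : ℝ => (1 : ℝ) :=
      one_O (by fun_prop)
    have h2 := (isBigO_refl (fun t : ℝ => t) (𝓝 0)).mul h1
    simp only [mul_one] at h2
    refine h2.congr_left fun t => ?_
    ring
  have hLt : L =O[𝓝 0] fun t : ℝ => t := by
    refine ((hLA.trans h4t).add hAt).congr_left fun t => ?_
    ring
  have ht1 : (fun t : ℝ => t) =O[𝓝 0] fun _ : ℝ => (1 : ℝ) :=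
    one_O (by fun_prop)
  have hL1 := hLt.trans ht1
  have hA1 := hAt.trans ht1
  -- squares and cubes
  have hsq : (fun t => L t ^ 2 - A t ^ 2) =O[𝓝 0] fun t : ℝ => t ^ 4 := by
    have h1 := hLA.mul (hL1.add hA1)
    simp only [mul_one] at h1
    exact h1.congr_left fun t => by ring
  have hcu : (fun t => L t ^ 3 - A t ^ 3) =O[𝓝 0] fun t : ℝ => t ^ 4 := by
    have h2 : (fun t => L t * L t + L t * A t + A t * A t) =O[𝓝 0] fun _ : ℝ => (1 : ℝ) := by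
      have k1 := hL1.mul hL1
      have k2 := hL1.mul hA1
      have k3 := hA1.mul hA1
      simp only [mul_one] at k1 k2 k3
      exact (k1.add k2).add k3
    have h1 := hLA.mul h2
    simp only [mul_one] at h1
    exact h1.congr_left fun t => by ring
  -- the polynomial part
  have hpol : (fun t => (1 + A t + A t ^ 2 / 2 + A t ^ 3 / 6) - (1 + (-(s * p1)) * t
      + ((s * p2 + s ^ 2 * p1 ^ 2) / 2) * t ^ 2
      + (-((2 * s * p3 + 3 * s ^ 2 * p1 * p2 + s ^ 3 * p1 ^ 3) / 6)) * t ^ 3)) =O[𝓝 0]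
        fun t : ℝ => t ^ 4 := by
    obtain ⟨a, ha⟩ : ∃ a, a = -(s * p1) := ⟨_, rfl⟩
    obtain ⟨b, hb⟩ : ∃ b, b = s * p2 / 2 := ⟨_, rfl⟩
    obtain ⟨c, hc⟩ : ∃ c, c = -(s * p3 / 3) := ⟨_, rfl⟩
    have h1 : (fun t : ℝ => (b ^ 2 / 2 + a * c + a ^ 2 * b / 2) +
        (b * c + (a * b ^ 2 / 2 + a ^ 2 * c / 2)) * t +
        (c ^ 2 / 2 + (b ^ 3 / 6 + a * b * c)) * t ^ 2 + (b ^ 2 * c / 2 + a * c ^ 2 / 2) * t ^ 3 +
        (b * c ^ 2 / 2) * t ^ 4 + (c ^ 3 / 6) * t ^ 5) =O[𝓝 0] fun _ : ℝ => (1 : ℝ) :=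
      one_O (by fun_prop)
    have h2 := (isBigO_refl (fun t : ℝ => t ^ 4) (𝓝 0)).mul h1
    simp only [mul_one] at h2
    refine h2.congr_left fun t => ?_
    rw [hA]
    simp only
    rw [ha, hb, hc]
    ring
  have hexp := exp_O hLt
  have hall : (fun t => Real.exp (L t) - (1 + (-(s * p1)) * t
      + ((s * p2 + s ^ 2 * p1 ^ 2) / 2) * t ^ 2
      + (-((2 * s * p3 + 3 * s ^ 2 * p1 * p2 + s ^ 3 * p1 ^ 3) / 6)) * t ^ 3)) =O[𝓝 0]
        fun t : ℝ => t ^ 4 := by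
    refine ((((hexp.add hLA).add (hsq.const_mul_left (1 / 2))).add
      (hcu.const_mul_left (1 / 6))).add hpol).congr_left fun t => ?_
    ring
  -- the product
  have hprod : ∀ᶠ t : ℝ in 𝓝 0, (∏ i, (1 + t * l i)) ^ (-s) = Real.exp (L t) := by
    have h1 : ∀ᶠ t : ℝ in 𝓝 0, ∀ i, 0 < 1 + t * l i := by
      rw [eventually_all]
      intro i
      have hc : ContinuousAt (fun t : ℝ => 1 + t * l i) 0 := by fun_prop
      refine continuousAt_const.eventually_lt hc ?_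
      simp
    filter_upwards [h1] with t ht
    rw [Real.rpow_def_of_pos (Finset.prod_pos fun i _ => ht i),
      Real.log_prod (fun i _ => (ht i).ne'), hL]
    congr 1
    ring
  obtain ⟨K, hK⟩ := hall.bound
  obtain ⟨ε, hε, hball⟩ := Metric.eventually_nhds_iff.mp (hK.and hprod)
  refine ⟨K, ε / 2, by linarith, fun t ht => ?_⟩
  obtain ⟨h1, h2⟩ := hball (y := t) (by rw [Real.dist_eq, sub_zero]; linarith)
  rw [h2]
  rw [Real.norm_eq_abs, Real.norm_eq_abs] at h1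
  have h3 : |t ^ 4| = t ^ 4 := abs_of_nonneg (by positivity)
  rw [h3] at h1
  exact h1

end Pool.Agent.Q265.WI
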